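import Pool.Agent.N662.FP.Stm

/-!
Project FL, leaves TRI and SUB (helper776): triangle inequality and subadditivity of the passage time.
-/

set_option autoImplicit false

namespace Pool.Agent.N776.FL

open Pool.Agent.N662.FP

theorem ps_add {x : Sym2 (ℤ × ℤ) → ℝ} {a b c : ℤ × ℤ} {s1 s2 : ℝ} (h1 : s1 ∈ PS x a b)
    (h2 : s2 ∈ PS x b c) : s1 + s2 ∈ PS x a c := by
  obtain ⟨n1, p, hp0, hp1, hp2, rfl⟩ := h1
  obtain ⟨n2, q, hq0, hq1, hq2, rfl⟩ := h2
  set r : ℕ → ℤ × ℤ := fun i => if i < n1 then p i else q (i - n1) with hr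
  have r1 : ∀ i, i ≤ n1 → r i = p i := by
    intro i hi
    rcases lt_or_eq_of_le hi with h | h
    · simp [hr, h]
    · subst h
      simp [hr, hq0, hp1]
  have r2 : ∀ i, r (n1 + i) = q i := by
    intro i
    simp [hr]
  refine ⟨n1 + n2, r, ?_, ?_, ?_, ?_⟩
  · rw [r1 0 (Nat.zero_le _), hp0]
  · rw [r2, hq1]
  · intro i hi
    by_cases h : i < n1
    · rw [r1 i h.le, r1 (i + 1) h]
      exact hp2 i h
    · obtain ⟨j, rfl⟩ := Nat.exists_eq_add_of_le (not_lt.1 h)
      rw [r2 j, add_assoc, r2 (j + 1)]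
      exact hq2 j (by omega)
  · rw [Finset.sum_range_add]
    congr 1
    · refine Finset.sum_congr rfl fun i hi => ?_
      have h := Finset.mem_range.1 hi
      rw [r1 i h.le, r1 (i + 1) h]
    · refine Finset.sum_congr rfl fun i hi => ?_
      rw [r2 i, add_assoc, r2 (i + 1)]

/-- triangle inequality -/
theorem t_TRI (h : S_GE) : S_TRI := by
  intro x hx a b c
  obtain ⟨n1, b1, -, -⟩ := h x hx a c
  obtain ⟨n2, b2, -, -⟩ := h x hx a b
  obtain ⟨n3, b3, -, -⟩ := h x hx b c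
  have h1 : D x a c - D x a b ≤ D x b c := by
    refine le_csInf n3 fun s2 hs2 => ?_
    have h2 : D x a c - s2 ≤ D x a b := by
      refine le_csInf n2 fun s1 hs1 => ?_
      have h3 : D x a c ≤ s1 + s2 := csInf_le b1 (ps_add hs1 hs2)
      linarith
    linarith
  linarith

/-- subadditivity along the multiples of `v` -/
theorem t_SUB (h1 : S_TRI) (h2 : S_GE) : S_SUB := by
  intro x hx v n
  induction n with
  | zero =>
    obtain ⟨-, b1, -, -⟩ := h2 x hx 0 (((0 : ℕ) : ℤ) • v)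
    rw [Finset.sum_range_zero]
    refine csInf_le b1 ⟨0, fun _ => 0, rfl, ?_, ?_, ?_⟩
    · simp
    · intro i hi
      exact absurd hi (Nat.not_lt_zero i)
    · simp
  | succ n ih =>
    rw [Finset.sum_range_succ]
    have h3 : (((n + 1 : ℕ) : ℤ)) • v = (n : ℤ) • v + v := by
      push_cast
      rw [add_smul, one_smul]
    rw [h3]
    exact (h1 x hx 0 ((n : ℤ) • v) ((n : ℤ) • v + v)).trans (by linarith)

end Pool.Agent.N776.FL
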